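import Pool.Agent.Helper7.PX.Goals
import Pool.Agent.Helper74.CG.CM
import Pool.Agent.Helper88.CG.VP

/-!
# Packet PX-CM (MP_69be96_nt): combinatorial comparison of the mean squares, two kinds of points
-/

set_option autoImplicit false

open Finset Filter Topology

open scoped Classical

namespace Pool.Agent.Helper69.PX

open Pool.Agent.Helper88.PP (pr Rg om Sf SS uu vv ee LA VV QQ cost)
open Pool.Agent.Helper88.RR (gg ab TB nz)
open Pool.Agent.Helper88.CG (qE mE)
open Pool.Agent.Helper33.RR (card_labels gg_nonneg gg_succ om_nonneg VV_nonneg)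
open Pool.Agent.Helper74.CG (sp Wr Ts tau Wr_nonneg Ts_nonneg Ts_eq tau_nonneg tau_zero sum_sp gg_le
  choose_cmp)
open Pool.Agent.Helper7.PX

/-! ## Sums over the subsets of a union -/

theorem pow_union {ι : Type} [DecidableEq ι] (A B : Finset ι) (h : Disjoint A B) (G : Finset ι → ℝ) :
    ∑ X ∈ (A ∪ B).powerset, G X = ∑ X ∈ A.powerset, ∑ Y ∈ B.powerset, G (X ∪ Y) := by
  rw [← Finset.sum_product']
  refine Finset.sum_bij' (fun X _ => (X ∩ A, X ∩ B)) (fun p _ => p.1 ∪ p.2) ?_ ?_ ?_ ?_ ?_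
  · intro X _
    simp
  · intro p hp
    rw [Finset.mem_product, Finset.mem_powerset, Finset.mem_powerset] at hp
    rw [Finset.mem_powerset]
    exact Finset.union_subset_union hp.1 hp.2
  · intro X hX
    rw [Finset.mem_powerset] at hX
    show X ∩ A ∪ X ∩ B = X
    rw [← Finset.inter_union_distrib_left]
    exact Finset.inter_eq_left.2 hX
  · intro p hp
    rw [Finset.mem_product, Finset.mem_powerset, Finset.mem_powerset] at hp
    obtain ⟨X, Y⟩ := p
    simp only at hp ⊢
    rw [Finset.disjoint_left] at h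
    refine Prod.ext ?_ ?_
    · ext i
      simp only [Finset.mem_inter, Finset.mem_union]
      constructor
      · rintro ⟨h1 | h1, h2⟩
        · exact h1
        · exact absurd (hp.2 h1) (h h2)
      · intro h1
        exact ⟨Or.inl h1, hp.1 h1⟩
    · ext i
      simp only [Finset.mem_inter, Finset.mem_union]
      constructor
      · rintro ⟨h1 | h1, h2⟩
        · exact absurd h2 (h (hp.1 h1))
        · exact h1
      · intro h1
        exact ⟨Or.inr h1, hp.2 h1⟩
  · intro X hX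
    rw [Finset.mem_powerset] at hX
    show G X = G (X ∩ A ∪ X ∩ B)
    rw [← Finset.inter_union_distrib_left, Finset.inter_eq_left.2 hX]

theorem pow_card {ι : Type} (A : Finset ι) (n : ℕ) (hn : A.card < n) (G : ℕ → ℝ) :
    ∑ X ∈ A.powerset, G X.card = ∑ k ∈ range n, (A.card.choose k : ℝ) * G k := by
  rw [Finset.sum_powerset_apply_card]
  refine Eq.trans (Finset.sum_congr rfl fun k _ => by rw [nsmul_eq_mul]) ?_
  refine Finset.sum_subset (Finset.range_subset_range.2 (by omega)) fun k _ hk => ?_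
  rw [Finset.mem_range, not_lt] at hk
  rw [Nat.choose_eq_zero_of_lt (by omega), Nat.cast_zero, zero_mul]

theorem pow2 {ι : Type} [DecidableEq ι] (A B : Finset ι) (h : Disjoint A B) (n : ℕ) (hA : A.card < n)
    (hB : B.card < n) (F : ℕ → ℕ → ℝ) :
    ∑ X ∈ (A ∪ B).powerset, F (X ∩ A).card (X ∩ B).card
      = ∑ k ∈ range n, ∑ l ∈ range n, (A.card.choose k : ℝ) * ((B.card.choose l : ℝ) * F k l) := by
  rw [pow_union A B h]
  have h1 : ∀ X ∈ A.powerset, ∑ Y ∈ B.powerset, F ((X ∪ Y) ∩ A).card ((X ∪ Y) ∩ B).card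
      = ∑ l ∈ range n, (B.card.choose l : ℝ) * F X.card l := by
    intro X hX
    rw [Finset.mem_powerset] at hX
    rw [← pow_card B n hB (fun l => F X.card l)]
    refine Finset.sum_congr rfl fun Y hY => ?_
    rw [Finset.mem_powerset] at hY
    have h2 : (X ∪ Y) ∩ A = X := by
      ext i
      simp only [Finset.mem_inter, Finset.mem_union]
      constructor
      · rintro ⟨h1 | h1, h2⟩
        · exact h1
        · exact absurd (hY h1) (Finset.disjoint_left.1 h h2)
      · intro h1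
        exact ⟨Or.inl h1, hX h1⟩
    have h3 : (X ∪ Y) ∩ B = Y := by
      ext i
      simp only [Finset.mem_inter, Finset.mem_union]
      constructor
      · rintro ⟨h1 | h1, h2⟩
        · exact absurd h2 (Finset.disjoint_left.1 h (hX h1))
        · exact h1
      · intro h1
        exact ⟨Or.inr h1, hY h1⟩
    rw [h2, h3]
  rw [Finset.sum_congr rfl h1, pow_card A n hA (fun k => ∑ l ∈ range n, (B.card.choose l : ℝ) * F k l)]
  refine Finset.sum_congr rfl fun k _ => ?_
  rw [Finset.mul_sum]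

/-! ## One more label -/

/-- the total mass of one label -/
noncomputable def t1 (m q z : ℕ) : ℝ :=
  ∑ s ∈ LA z m (q * m), ab m q z s ^ 2 * (Nat.totient s : ℝ)

theorem t1_nonneg (m q z : ℕ) : 0 ≤ t1 m q z := Finset.sum_nonneg fun _ _ => by positivity

theorem Wr_update (m q z : ℕ) {P : Finset ℕ} (r : P → ℕ) (i : P) (hi : r i ≠ 0) :
    Wr m q z r = (ab m q z (r i) ^ 2 * (Nat.totient (r i) : ℝ)) *
      Wr m q z (Function.update r i 0) := by
  unfold Wr
  rw [← Finset.mul_prod_erase univ _ (Finset.mem_univ i),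
    ← Finset.mul_prod_erase univ (fun k => if Function.update r i 0 k = 0 then (1 : ℝ) else
      ab m q z (Function.update r i 0 k) ^ 2 * (Nat.totient (Function.update r i 0 k) : ℝ))
      (Finset.mem_univ i)]
  rw [if_neg hi, Function.update_self, if_pos rfl, one_mul]
  congr 1
  refine Finset.prod_congr rfl fun k hk => ?_
  rw [Function.update_of_ne (Finset.ne_of_mem_erase hk)]

theorem Ts_succ (m q M z : ℕ) (P : Finset ℕ) (A : Finset P) (i : P) (hi : i ∈ A) :
    Ts m q M z P A ≤ t1 m q z * Ts m q M z P (A.erase i) := by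
  have h1 : t1 m q z * Ts m q M z P (A.erase i)
      = ∑ p ∈ LA z m (q * m) ×ˢ (TB m q M z P).filter (fun r => sp r = A.erase i),
        (ab m q z p.1 ^ 2 * (Nat.totient p.1 : ℝ)) * Wr m q z p.2 := by
    rw [t1, Ts, Finset.sum_mul_sum, Finset.sum_product]
  rw [h1]
  have hne : ∀ r ∈ (TB m q M z P).filter (fun r => sp r = A), r i ≠ 0 := by
    intro r hr
    rw [mem_filter] at hr
    have : i ∈ sp r := by rw [hr.2]; exact hi
    exact (mem_filter.1 this).2
  obtain ⟨f, hf⟩ : ∃ f : (P → ℕ) → ℕ × (P → ℕ), f = fun r => (r i, Function.update r i 0) :=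
    ⟨_, rfl⟩
  obtain ⟨G, hG⟩ : ∃ G : ℕ × (P → ℕ) → ℝ, G = fun p =>
    (ab m q z p.1 ^ 2 * (Nat.totient p.1 : ℝ)) * Wr m q z p.2 := ⟨_, rfl⟩
  have hinj : Set.InjOn f ((TB m q M z P).filter (fun r => sp r = A)) := by
    intro r _ r' _ hrr
    rw [hf] at hrr
    simp only [Prod.mk.injEq] at hrr
    funext k
    by_cases hk : k = i
    · subst hk
      exact hrr.1
    · have := congrFun hrr.2 k
      rwa [Function.update_of_ne hk, Function.update_of_ne hk] at this
  have h2 : Ts m q M z P A = ∑ p ∈ ((TB m q M z P).filter (fun r => sp r = A)).image f, G p := by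
    rw [Finset.sum_image hinj]
    unfold Ts
    refine Finset.sum_congr rfl fun r hr => ?_
    rw [hf, hG]
    exact Wr_update m q z r i (hne r hr)
  rw [h2, hG]
  refine Finset.sum_le_sum_of_subset_of_nonneg ?_ fun p _ _ =>
    mul_nonneg (by positivity) (Wr_nonneg _ _ _ _)
  intro p hp
  rw [Finset.mem_image] at hp
  obtain ⟨r, hr, rfl⟩ := hp
  have hri := hne r hr
  rw [mem_filter] at hr
  have hr1 := hr.1
  simp only [TB, mem_filter, Fintype.mem_piFinset] at hr1
  rw [hf, Finset.mem_product, mem_filter]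
  refine ⟨?_, ?_, ?_⟩
  · have := hr1.1 i
    rw [Finset.mem_insert] at this
    exact this.resolve_left hri
  · simp only [TB, mem_filter, Fintype.mem_piFinset]
    refine ⟨fun k => ?_, ?_⟩
    · by_cases hk : k = i
      · subst hk
        simp
      · rw [Function.update_of_ne hk]
        exact hr1.1 k
    · refine le_trans ?_ hr1.2
      unfold cost
      refine Finset.sum_le_sum fun k _ => ?_
      by_cases hk : k = i
      · subst hk
        simp
      · rw [Function.update_of_ne hk]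
  · ext k
    rw [← hr.2]
    simp only [sp, mem_filter, mem_univ, true_and, Finset.mem_erase]
    by_cases hk : k = i
    · subst hk
      simp
    · rw [Function.update_of_ne hk]
      simp [hk]

theorem tau_succ (m q M z : ℕ) (P : Finset ℕ) (k : ℕ) :
    tau m q M z P (k + 1) ≤ t1 m q z * tau m q M z P k := by
  by_cases h : ∃ A : Finset P, A.card = k + 1
  · obtain ⟨A, hA⟩ := h
    have hne : A.Nonempty := Finset.card_pos.1 (by omega)
    obtain ⟨i, hi⟩ := hne
    have h1 := Ts_succ m q M z P A i hi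
    rw [Ts_eq, Ts_eq, hA, Finset.card_erase_of_mem hi, hA] at h1
    exact h1
  · have h1 : tau m q M z P (k + 1) = 0 := by
      unfold tau
      rw [dif_neg h]
    rw [h1]
    exact mul_nonneg (t1_nonneg _ _ _) (tau_nonneg _ _ _ _ _ _)

theorem tau_add (m q M z : ℕ) (P : Finset ℕ) (k l : ℕ) :
    tau m q M z P (k + l) ≤ t1 m q z ^ k * tau m q M z P l := by
  induction k with
  | zero => simp
  | succ k ih =>
    rw [show k + 1 + l = k + l + 1 by ring, pow_succ', mul_assoc]
    exact (tau_succ m q M z P (k + l)).trans (mul_le_mul_of_nonneg_left ih (t1_nonneg _ _ _))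

/-! ## The two comparisons -/

theorem case_many (T g : ℕ → ℝ) (hT0 : ∀ k, 0 ≤ T k) (K : ℕ) (hTK : ∀ k, K < k → T k = 0)
    (o η t : ℝ) (ho : 0 ≤ o) (hη : η ≤ 1) (hg : ∀ k ≤ K, g k ≤ o ^ k)
    (NA NB sA sB n : ℕ)
    (hA : ∀ k ≤ K, (1 - η) * ((NA.choose k : ℝ) * o ^ k) ≤ sA.choose k)
    (hB : ∀ k ≤ K, (1 - η) * ((NB.choose k : ℝ) * o ^ k) ≤ sB.choose k) :
    (1 - η) ^ 2 * ∑ k ∈ range n, ∑ l ∈ range n, (NA.choose k : ℝ) *
        ((NB.choose l : ℝ) * (g (k + l) * (t ^ 2) ^ l * T (k + l)))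
      ≤ ∑ k ∈ range n, ∑ l ∈ range n, (sA.choose k : ℝ) *
        ((sB.choose l : ℝ) * ((t ^ 2) ^ l * T (k + l))) := by
  rw [Finset.mul_sum]
  refine Finset.sum_le_sum fun k _ => ?_
  rw [Finset.mul_sum]
  refine Finset.sum_le_sum fun l _ => ?_
  rcases le_or_gt (k + l) K with hk | hk
  · have h1 := hA k (by omega)
    have h2 := hB l (by omega)
    have h3 := hg (k + l) hk
    have h4 := hT0 (k + l)
    have h5 : (0 : ℝ) ≤ (t ^ 2) ^ l * T (k + l) := by positivity
    have h6 : 0 ≤ 1 - η := by linarith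
    have h7 : ((1 - η) * ((NA.choose k : ℝ) * o ^ k)) * ((1 - η) * ((NB.choose l : ℝ) * o ^ l))
        ≤ (sA.choose k : ℝ) * (sB.choose l : ℝ) :=
      mul_le_mul h1 h2 (by positivity) (by positivity)
    calc (1 - η) ^ 2 * ((NA.choose k : ℝ) *
          ((NB.choose l : ℝ) * (g (k + l) * (t ^ 2) ^ l * T (k + l))))
        = ((1 - η) ^ 2 * ((NA.choose k : ℝ) * (NB.choose l : ℝ)) *
            ((t ^ 2) ^ l * T (k + l))) * g (k + l) := by ring
      _ ≤ ((1 - η) ^ 2 * ((NA.choose k : ℝ) * (NB.choose l : ℝ)) *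
            ((t ^ 2) ^ l * T (k + l))) * o ^ (k + l) :=
          mul_le_mul_of_nonneg_left h3 (by positivity)
      _ = (((1 - η) * ((NA.choose k : ℝ) * o ^ k)) * ((1 - η) * ((NB.choose l : ℝ) * o ^ l))) *
            ((t ^ 2) ^ l * T (k + l)) := by ring
      _ ≤ ((sA.choose k : ℝ) * (sB.choose l : ℝ)) * ((t ^ 2) ^ l * T (k + l)) :=
          mul_le_mul_of_nonneg_right h7 h5
      _ = _ := by ring
  · rw [hTK (k + l) hk]
    simp

theorem case_few (T g : ℕ → ℝ) (hT0 : ∀ k, 0 ≤ T k) (K : ℕ) (hTK : ∀ k, K < k → T k = 0)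
    (o η t u : ℝ) (ho : 0 ≤ o) (hu : 0 ≤ u) (hη : η ≤ 1) (hg : ∀ k ≤ K, g k ≤ o ^ k)
    (hTa : ∀ k l, T (k + l) ≤ u ^ k * T l)
    (NA NB sA sB n : ℕ) (hn : 0 < n) (hNA : NA < n)
    (hB : ∀ k ≤ K, (1 - η) * ((NB.choose k : ℝ) * o ^ k) ≤ sB.choose k) :
    (1 - η) * ∑ k ∈ range n, ∑ l ∈ range n, (NA.choose k : ℝ) *
        ((NB.choose l : ℝ) * (g (k + l) * (t ^ 2) ^ l * T (k + l)))
      ≤ Real.exp (NA * o * u) * ∑ k ∈ range n, ∑ l ∈ range n, (sA.choose k : ℝ) *
        ((sB.choose l : ℝ) * ((t ^ 2) ^ l * T (k + l))) := by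
  have h6 : 0 ≤ 1 - η := by linarith
  have e1 : ∑ l ∈ range n, ((sB.choose l : ℝ) * ((t ^ 2) ^ l * T l))
      ≤ ∑ k ∈ range n, ∑ l ∈ range n, (sA.choose k : ℝ) *
        ((sB.choose l : ℝ) * ((t ^ 2) ^ l * T (k + l))) := by
    refine le_trans (le_of_eq ?_) (Finset.single_le_sum (f := fun k => ∑ l ∈ range n,
      (sA.choose k : ℝ) * ((sB.choose l : ℝ) * ((t ^ 2) ^ l * T (k + l))))
      (fun k _ => Finset.sum_nonneg fun l _ => ?_) (Finset.mem_range.2 hn))
    · simp
    · have := hT0 (k + l)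
      positivity
  have e2 : ∑ k ∈ range n, (NA.choose k : ℝ) * (o * u) ^ k = (1 + o * u) ^ NA := by
    rw [add_comm, add_pow]
    symm
    refine Eq.trans (Finset.sum_subset (Finset.range_subset_range.2 (by omega : NA + 1 ≤ n))
      fun k _ hk => ?_) (Finset.sum_congr rfl fun k _ => by rw [one_pow]; ring)
    rw [Finset.mem_range, not_lt] at hk
    rw [Nat.choose_eq_zero_of_lt (by omega), Nat.cast_zero, mul_zero]
  have e3 : (1 + o * u) ^ NA ≤ Real.exp (NA * o * u) := by
    calc (1 + o * u) ^ NA ≤ Real.exp (o * u) ^ NA := by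
          refine pow_le_pow_left₀ (by positivity) ?_ _
          have := Real.add_one_le_exp (o * u)
          linarith
      _ = Real.exp (NA * (o * u)) := by rw [Real.exp_nat_mul]
      _ = Real.exp (NA * o * u) := by rw [mul_assoc]
  have e4 : (1 - η) * ∑ k ∈ range n, ∑ l ∈ range n, (NA.choose k : ℝ) *
        ((NB.choose l : ℝ) * (g (k + l) * (t ^ 2) ^ l * T (k + l)))
      ≤ ∑ k ∈ range n, ∑ l ∈ range n, ((NA.choose k : ℝ) * (o * u) ^ k) *
        ((sB.choose l : ℝ) * ((t ^ 2) ^ l * T l)) := by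
    rw [Finset.mul_sum]
    refine Finset.sum_le_sum fun k _ => ?_
    rw [Finset.mul_sum]
    refine Finset.sum_le_sum fun l _ => ?_
    have h8 := hT0 l
    rcases le_or_gt (k + l) K with hk | hk
    · have h2 := hB l (by omega)
      have h3 := hg (k + l) hk
      have h4 := hT0 (k + l)
      have h9 : (0 : ℝ) ≤ (t ^ 2) ^ l := by positivity
      calc (1 - η) * ((NA.choose k : ℝ) *
            ((NB.choose l : ℝ) * (g (k + l) * (t ^ 2) ^ l * T (k + l))))
          = ((1 - η) * ((NA.choose k : ℝ) * (NB.choose l : ℝ)) *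
              ((t ^ 2) ^ l * T (k + l))) * g (k + l) := by ring
        _ ≤ ((1 - η) * ((NA.choose k : ℝ) * (NB.choose l : ℝ)) *
              ((t ^ 2) ^ l * T (k + l))) * o ^ (k + l) :=
            mul_le_mul_of_nonneg_left h3 (by positivity)
        _ = ((1 - η) * ((NB.choose l : ℝ) * o ^ l)) *
              ((NA.choose k : ℝ) * o ^ k * (t ^ 2) ^ l * T (k + l)) := by ring
        _ ≤ (sB.choose l : ℝ) * ((NA.choose k : ℝ) * o ^ k * (t ^ 2) ^ l * T (k + l)) :=
            mul_le_mul_of_nonneg_right h2 (by positivity)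
        _ = ((sB.choose l : ℝ) * ((NA.choose k : ℝ) * o ^ k * (t ^ 2) ^ l)) * T (k + l) := by ring
        _ ≤ ((sB.choose l : ℝ) * ((NA.choose k : ℝ) * o ^ k * (t ^ 2) ^ l)) * (u ^ k * T l) :=
            mul_le_mul_of_nonneg_left (hTa k l) (by positivity)
        _ = _ := by rw [mul_pow]; ring
    · rw [hTK (k + l) hk]
      simp only [mul_zero]
      positivity
  have e5 : ∑ k ∈ range n, ∑ l ∈ range n, ((NA.choose k : ℝ) * (o * u) ^ k) *
        ((sB.choose l : ℝ) * ((t ^ 2) ^ l * T l))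
      = (1 + o * u) ^ NA * ∑ l ∈ range n, ((sB.choose l : ℝ) * ((t ^ 2) ^ l * T l)) := by
    rw [← e2, Finset.sum_mul_sum]
  have e6 : 0 ≤ ∑ l ∈ range n, ((sB.choose l : ℝ) * ((t ^ 2) ^ l * T l)) :=
    Finset.sum_nonneg fun l _ => by
      have := hT0 l
      positivity
  calc _ ≤ _ := e4
    _ = (1 + o * u) ^ NA * ∑ l ∈ range n, ((sB.choose l : ℝ) * ((t ^ 2) ^ l * T l)) := e5
    _ ≤ Real.exp (NA * o * u) * ∑ l ∈ range n, ((sB.choose l : ℝ) * ((t ^ 2) ^ l * T l)) :=
        mul_le_mul_of_nonneg_right e3 e6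
    _ ≤ _ := mul_le_mul_of_nonneg_left e1 (Real.exp_pos _).le

/-! ## The coefficients -/

theorem cw_sq (E z : ℕ) (B : Finset ℕ) (t : ℝ) {P : Finset ℕ} (r : P → ℕ) :
    cw E z B t r ^ 2 * ∏ i : P, (if r i = 0 then 1 else (Nat.totient (r i) : ℝ))
      = (t ^ 2) ^ (sp r ∩ univ.filter (fun i : P => (i : ℕ) ∈ B)).card * Wr (mE E) (qE E) z r := by
  have h1 : (t ^ 2) ^ (sp r ∩ univ.filter (fun i : P => (i : ℕ) ∈ B)).card
      = ∏ i : P, (if r i ≠ 0 ∧ (i : ℕ) ∈ B then t ^ 2 else 1) := by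
    rw [← Finset.prod_const]
    have : sp r ∩ univ.filter (fun i : P => (i : ℕ) ∈ B)
        = univ.filter (fun i : P => r i ≠ 0 ∧ (i : ℕ) ∈ B) := by
      ext i
      simp [sp]
    rw [this, Finset.prod_filter]
  rw [h1, cw, Wr, ← Finset.prod_pow, ← Finset.prod_mul_distrib, ← Finset.prod_mul_distrib]
  refine Finset.prod_congr rfl fun i _ => ?_
  by_cases h : r i = 0
  · simp [h]
  · by_cases hB : (i : ℕ) ∈ B
    · simp only [h, hB, cs, if_false, if_true, ne_eq, not_false_eq_true, and_self]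
      ring
    · simp only [h, hB, cs, if_false, ne_eq, not_false_eq_true, and_false]
      ring

/-- the set of the points of `P` in `S` -/
theorem card_sub {P S : Finset ℕ} (hS : S ⊆ P) :
    (univ.filter (fun i : P => (i : ℕ) ∈ S)).card = S.card := by
  rw [← Finset.card_map (Function.Embedding.subtype (· ∈ P))]
  congr 1
  ext n
  simp only [Finset.mem_map, mem_filter, mem_univ, true_and, Function.Embedding.subtype_apply,
    Subtype.exists, exists_and_left, exists_prop, exists_eq_right_right]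
  constructor
  · intro h1
    exact h1.1
  · intro h
    exact ⟨h, hS h⟩

/-- the sum over the label functions with support in `S`, by the numbers of the labels at the two
kinds of points -/
theorem sum_two (m q M z : ℕ) (P S B : Finset ℕ) (hS : S ⊆ P) (n : ℕ) (hn : P.card < n)
    (g : ℕ → ℝ) (t : ℝ) :
    ∑ r ∈ TB m q M z P, (if sp r ⊆ univ.filter (fun i : P => (i : ℕ) ∈ S) then
        g (sp r).card * (t ^ 2) ^ (sp r ∩ univ.filter (fun i : P => (i : ℕ) ∈ B)).card else 0) *
        Wr m q z r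
      = ∑ k ∈ range n, ∑ l ∈ range n, ((S \ B).card.choose k : ℝ) *
        (((S ∩ B).card.choose l : ℝ) * (g (k + l) * (t ^ 2) ^ l * tau m q M z P (k + l))) := by
  rw [sum_sp m q M z P (fun X => if X ⊆ univ.filter (fun i : P => (i : ℕ) ∈ S) then
        g X.card * (t ^ 2) ^ (X ∩ univ.filter (fun i : P => (i : ℕ) ∈ B)).card else 0)]
  have hc1 : (univ.filter (fun i : P => (i : ℕ) ∈ S \ B)).card = (S \ B).card :=
    card_sub (Finset.sdiff_subset.trans hS)
  have hc2 : (univ.filter (fun i : P => (i : ℕ) ∈ S ∩ B)).card = (S ∩ B).card :=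
    card_sub (Finset.inter_subset_left.trans hS)
  have hu : univ.filter (fun i : P => (i : ℕ) ∈ S) = univ.filter (fun i : P => (i : ℕ) ∈ S \ B) ∪
      univ.filter (fun i : P => (i : ℕ) ∈ S ∩ B) := by
    ext i
    simp only [mem_filter, mem_univ, true_and, Finset.mem_union, Finset.mem_sdiff, Finset.mem_inter]
    tauto
  have hd : Disjoint (univ.filter (fun i : P => (i : ℕ) ∈ S \ B))
      (univ.filter (fun i : P => (i : ℕ) ∈ S ∩ B)) := by
    rw [Finset.disjoint_left]
    intro i h1 h2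
    simp only [mem_filter, mem_univ, true_and, Finset.mem_sdiff, Finset.mem_inter] at h1 h2
    exact h1.2 h2.2
  have hcS : S.card ≤ P.card := Finset.card_le_card hS
  have hA : (univ.filter (fun i : P => (i : ℕ) ∈ S \ B)).card < n := by
    rw [hc1]
    have := Finset.card_le_card (Finset.sdiff_subset (s := S) (t := B))
    omega
  have hB : (univ.filter (fun i : P => (i : ℕ) ∈ S ∩ B)).card < n := by
    rw [hc2]
    have := Finset.card_le_card (Finset.inter_subset_left (s₁ := S) (s₂ := B))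
    omega
  have h1 := pow2 _ _ hd n hA hB (fun k l => g (k + l) * (t ^ 2) ^ l * tau m q M z P (k + l))
  rw [hc1, hc2, ← hu] at h1
  rw [← h1]
  rw [← Finset.sum_filter_add_sum_filter_not (univ : Finset (Finset P))
    (fun X => X ⊆ univ.filter (fun i : P => (i : ℕ) ∈ S))]
  have h4 : ∑ X ∈ univ.filter (fun X : Finset P =>
        ¬ X ⊆ univ.filter (fun i : P => (i : ℕ) ∈ S)),
      (if X ⊆ univ.filter (fun i : P => (i : ℕ) ∈ S) then
        g X.card * (t ^ 2) ^ (X ∩ univ.filter (fun i : P => (i : ℕ) ∈ B)).card else 0) *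
        tau m q M z P X.card = 0 := by
    refine Finset.sum_eq_zero fun X hX => ?_
    rw [if_neg (mem_filter.1 hX).2, zero_mul]
  rw [h4, add_zero]
  refine Finset.sum_congr ?_ fun X hX => ?_
  · ext X
    rw [mem_filter, mem_powerset]
    simp only [mem_univ, true_and]
  · rw [mem_powerset] at hX
    rw [if_pos hX]
    have h5 : X ∩ univ.filter (fun i : P => (i : ℕ) ∈ B)
        = X ∩ univ.filter (fun i : P => (i : ℕ) ∈ S ∩ B) := by
      ext i
      simp only [Finset.mem_inter, mem_filter, mem_univ, true_and]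
      constructor
      · rintro ⟨a, b⟩
        have := hX a
        simp only [mem_filter, mem_univ, true_and] at this
        exact ⟨a, this, b⟩
      · rintro ⟨a, _, b⟩
        exact ⟨a, b⟩
    have h6 : X.card = (X ∩ univ.filter (fun i : P => (i : ℕ) ∈ S \ B)).card +
        (X ∩ univ.filter (fun i : P => (i : ℕ) ∈ S ∩ B)).card := by
      rw [← Finset.card_union_of_disjoint]
      · rw [← Finset.inter_union_distrib_left, ← hu, Finset.inter_eq_left.2 hX]
      · exact Finset.disjoint_of_subset_left Finset.inter_subset_right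
          (Finset.disjoint_of_subset_right Finset.inter_subset_right hd)
    rw [h5, ← h6]

/-- PACKET PX-CM. -/
theorem cm (hTL : StmtTL) : StmtCM := by
  obtain ⟨cK, hcK0, hcK1, hTL⟩ := hTL
  obtain ⟨c, hc, E1, hE1⟩ := Pool.Agent.Helper88.CG.vp
  refine ⟨cK, hcK0, hcK1, fun t ht η hη => ?_⟩
  obtain ⟨E2, hE2⟩ := hTL t ht (η ^ 2 / 4) (by positivity)
  obtain ⟨e0, he0⟩ : ∃ e0 : ℝ, e0 = max 2 (1 / η) := ⟨_, rfl⟩
  have he01 : 2 ≤ e0 := by rw [he0]; exact le_max_left _ _
  refine ⟨max (max E1 E2) ⌈e0 ^ 12⌉₊, ?_⟩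
  intro E z y hE hz hy P B hP hBP hsmall hNB j hjB S hS hjS hA hB
  have hE11 : E1 ≤ E := le_trans (le_trans (le_max_left _ _) (le_max_left _ _)) hE
  have hE22 : E2 ≤ E := le_trans (le_trans (le_max_right _ _) (le_max_left _ _)) hE
  obtain ⟨hm, hqm, -, hK6, hm4, hV⟩ := hE1 E hE11
  obtain ⟨hV1, -⟩ := hV z hz
  obtain ⟨hDN1, -, hgw0, htail⟩ := hE2 E z y hE22 hz hy P B hP hBP hsmall
  have hEe : e0 ^ 12 ≤ E := (Nat.le_ceil _).trans (by exact_mod_cast (le_max_right _ _).trans hE)
  obtain ⟨m, hmd⟩ : ∃ m, m = mE E := ⟨_, rfl⟩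
  obtain ⟨q, hqd⟩ : ∃ q, q = qE E := ⟨_, rfl⟩
  obtain ⟨M, hMd⟩ : ∃ M, M = E / 16 := ⟨_, rfl⟩
  have hTE : TE E z P = TB m q M z P := by rw [hmd, hqd, hMd]; rfl
  have hcw : ∀ r : P → ℕ, cw E z B t r ^ 2 *
      ∏ i : P, (if r i = 0 then 1 else (Nat.totient (r i) : ℝ))
      = (t ^ 2) ^ (sp r ∩ univ.filter (fun i : P => (i : ℕ) ∈ B)).card * Wr m q z r := by
    intro r
    rw [hmd, hqd]
    exact cw_sq E z B t r
  rw [← hmd] at hm hqm hK6 hm4 hV1 hA hB htail ⊢
  rw [← hqd] at hqm hV1 htail ⊢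
  rw [← hMd] at hqm hK6 hA hB htail ⊢
  rw [hTE] at hgw0 htail ⊢
  obtain ⟨K, hKd⟩ : ∃ K, K = M / m := ⟨_, rfl⟩
  rw [← hKd] at hK6 hA hB
  have hKy : K ≤ y := by
    have h1 : K ≤ M := by rw [hKd]; exact Nat.div_le_self _ _
    have h2 : M ≤ E := by rw [hMd]; exact Nat.div_le_self _ _
    omega
  -- the right side is not negative
  have hRS0 : ∀ r ∈ TB m q M z P, (0 : ℝ) ≤
      (if cost z r + q * m ≤ M ∧ r j = 0 ∧ (∀ i : P, r i ≠ 0 → (i : ℕ) ∈ S) then
      cw E z B t r ^ 2 * ∏ i : P, (if r i = 0 then 1 else (Nat.totient (r i) : ℝ)) else 0) := by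
    intro r _
    split_ifs
    · rw [hcw]
      exact mul_nonneg (by positivity) (Wr_nonneg _ _ _ _)
    · exact le_rfl
  rcases le_or_gt 1 η with hη1 | hη1
  · refine le_trans ?_ (Finset.sum_nonneg hRS0)
    exact mul_nonpos_of_nonpos_of_nonneg (by linarith) (by linarith)
  -- sizes
  have hq1 : 1 ≤ q := by
    rw [hqd]
    exact Nat.one_le_two_pow
  have hqm1 : q * m ≤ M := by
    refine le_trans ?_ hqm
    exact Nat.mul_le_mul_right m (by nlinarith)
  obtain ⟨e, hed⟩ : ∃ e : ℝ, e = (E : ℝ) ^ (1 / 12 : ℝ) := ⟨_, rfl⟩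
  have he12 : e ^ 12 = E := by
    rw [hed, ← Real.rpow_natCast, ← Real.rpow_mul (by positivity)]
    norm_num
  have he0' : 0 ≤ e := by rw [hed]; positivity
  have hee0 : e0 ≤ e := by
    by_contra h
    push Not at h
    have := pow_lt_pow_left₀ h he0' (by norm_num : 12 ≠ 0)
    linarith
  have he1 : 2 ≤ e := he01.trans hee0
  have hηe : 1 ≤ η * e := by
    have h1 : 1 / η ≤ e := by
      refine le_trans ?_ hee0
      rw [he0]
      exact le_max_right _ _
    rw [div_le_iff₀ hη] at h1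
    linarith
  have hsq : √(E : ℝ) = e ^ 6 := by
    rw [← he12, show e ^ 12 = (e ^ 6) ^ 2 by ring]
    exact Real.sqrt_sq (by positivity)
  have ho := om_nonneg y z
  have hK4 : (K : ℝ) ^ 2 ≤ e ^ 4 / 4 := by
    have h1 : (2 * ((K : ℝ) + 2)) ≤ e ^ 2 := by
      by_contra h
      push Not at h
      have h2 := pow_lt_pow_left₀ h (by positivity) (by norm_num : 6 ≠ 0)
      have h3 : (((2 * (K + 2)) ^ 6 : ℕ) : ℝ) ≤ E := by exact_mod_cast hK6
      push_cast at h3
      rw [← he12] at h3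
      have h4 : (e ^ 2) ^ 6 = e ^ 12 := by ring
      linarith
    have h3 : (K : ℝ) ≤ e ^ 2 / 2 := by linarith
    have h4 : (0 : ℝ) ≤ K := by positivity
    calc (K : ℝ) ^ 2 ≤ (e ^ 2 / 2) ^ 2 := pow_le_pow_left₀ h4 h3 2
      _ = e ^ 4 / 4 := by ring
  have hmany : ∀ N s : ℕ, √(E : ℝ) ≤ (N : ℝ) * om y z →
      (N : ℝ) * om y z * (1 - η / (8 * ((K : ℝ) + 1))) ≤ s → ∀ k ≤ K,
      (1 - η / 2) * ((N.choose k : ℝ) * om y z ^ k) ≤ s.choose k := by
    intro N s hN hs k hk
    refine choose_cmp ho (by linarith) (by linarith) hk ?_ ?_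
    · rw [hsq] at hN
      have h3 : e ^ 4 / 4 ≤ 3 * (η / 2) / 4 * e ^ 6 := by
        have h4 : 1 ≤ η * e ^ 2 := by nlinarith
        have h5 : 3 * (η / 2) / 4 * e ^ 6 = 3 / 8 * (η * e ^ 2) * e ^ 4 := by ring
        rw [h5]
        have h6 : 0 ≤ e ^ 4 := by positivity
        nlinarith
      have h4 : 3 * (η / 2) / 4 * e ^ 6 ≤ 3 * (η / 2) / 4 * ((N : ℝ) * om y z) :=
        mul_le_mul_of_nonneg_left hN (by positivity)
      linarith
    · have h1 : η / 2 / (4 * ((K : ℝ) + 1)) = η / (8 * ((K : ℝ) + 1)) := by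
        rw [div_div]
        congr 1
        ring
      rw [h1]
      exact hs
  -- the main part of the mean square
  obtain ⟨M', hM'⟩ : ∃ M', M' = M - q * m := ⟨_, rfl⟩
  have hM'M : M' ≤ M := by omega
  obtain ⟨n, hn⟩ : ∃ n, n = P.card + 1 := ⟨_, rfl⟩
  obtain ⟨L, hL⟩ : ∃ L : ℝ, L = ∑ k ∈ range n, ∑ l ∈ range n, ((P \ B).card.choose k : ℝ) *
        (((P ∩ B).card.choose l : ℝ) * (gg y z (k + l) * (t ^ 2) ^ l * tau m q M' z P (k + l))) :=
    ⟨_, rfl⟩
  obtain ⟨R, hR⟩ : ∃ R : ℝ, R = ∑ k ∈ range n, ∑ l ∈ range n, ((S \ B).card.choose k : ℝ) *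
        (((S ∩ B).card.choose l : ℝ) * ((t ^ 2) ^ l * tau m q M' z P (k + l))) :=
    ⟨_, rfl⟩
  have hTB : TB m q M' z P = (TB m q M z P).filter (fun r => cost z r + q * m ≤ M) := by
    ext r
    simp only [TB, mem_filter, Fintype.mem_piFinset]
    constructor
    · rintro ⟨a, b⟩
      exact ⟨⟨a, by omega⟩, by omega⟩
    · rintro ⟨⟨a, b⟩, c'⟩
      exact ⟨a, by omega⟩
  have hLe : ∑ r ∈ (TB m q M z P).filter (fun r => cost z r + q * m ≤ M), gw y z (cw E z B t) r
      = L := by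
    rw [hL, ← sum_two m q M' z P P B (Finset.Subset.refl _) n (by omega) (gg y z) t, hTB]
    refine Finset.sum_congr rfl fun r _ => ?_
    have hsubP : sp r ⊆ univ.filter (fun i : P => (i : ℕ) ∈ P) :=
      fun i _ => mem_filter.2 ⟨mem_univ _, i.2⟩
    rw [if_pos hsubP]
    have h1 : gw y z (cw E z B t) r = gg y z (sp r).card * (cw E z B t r ^ 2 *
        ∏ i : P, (if r i = 0 then 1 else (Nat.totient (r i) : ℝ))) := by
      unfold gw
      show cw E z B t r ^ 2 * (gg y z (sp r).card * _) = _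
      ring
    rw [h1, hcw]
    ring
  have hRe : R ≤ ∑ r ∈ TB m q M z P,
      (if cost z r + q * m ≤ M ∧ r j = 0 ∧ (∀ i : P, r i ≠ 0 → (i : ℕ) ∈ S) then
      cw E z B t r ^ 2 * ∏ i : P, (if r i = 0 then 1 else (Nat.totient (r i) : ℝ)) else 0) := by
    have h1 : R = ∑ r ∈ TB m q M' z P, (if sp r ⊆ univ.filter (fun i : P => (i : ℕ) ∈ S) then
        1 * (t ^ 2) ^ (sp r ∩ univ.filter (fun i : P => (i : ℕ) ∈ B)).card else 0) *
        Wr m q z r := by
      rw [hR, sum_two m q M' z P S B hS n (by omega) (fun _ => 1) t]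
      refine Finset.sum_congr rfl fun k _ => Finset.sum_congr rfl fun l _ => ?_
      ring
    rw [h1, hTB]
    refine le_trans (Finset.sum_le_sum fun r hr => ?_)
      (Finset.sum_le_sum_of_subset_of_nonneg (Finset.filter_subset _ _) fun r hr _ => hRS0 r hr)
    rw [mem_filter] at hr
    by_cases hsub : sp r ⊆ univ.filter (fun i : P => (i : ℕ) ∈ S)
    · have h2 : ∀ i : P, r i ≠ 0 → (i : ℕ) ∈ S := by
        intro i hi
        have := hsub (mem_filter.2 ⟨mem_univ i, hi⟩ : i ∈ sp r)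
        exact (mem_filter.1 this).2
      have h3 : r j = 0 := by
        by_contra h
        exact hjS (h2 j h)
      rw [if_pos hsub, if_pos ⟨hr.2, h3, h2⟩, hcw]
      apply le_of_eq
      ring
    · rw [if_neg hsub, zero_mul]
      exact hRS0 r hr.1
  refine le_trans ?_ hRe
  -- the tail
  have hDL : (1 - η ^ 2 / 4) * DN E z y B t P ≤ L := by
    have h1 : DN E z y B t P = L + ∑ r ∈ (TB m q M z P).filter
        (fun r => M < cost z r + q * m), gw y z (cw E z B t) r := by
      rw [← hLe]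
      have h2 : (TB m q M z P).filter (fun r => M < cost z r + q * m)
          = (TB m q M z P).filter (fun r => ¬ cost z r + q * m ≤ M) :=
        Finset.filter_congr fun r _ => by rw [not_le]
      rw [h2, Finset.sum_filter_add_sum_filter_not, ← hTE]
      rfl
    have h3 : 0 ≤ ∑ r ∈ (TB m q M z P).filter (fun r => M < cost z r + q * m),
        gw y z (cw E z B t) r :=
      Finset.sum_nonneg fun r hr => hgw0 r (mem_filter.1 hr).1
    have h4 : (1 : ℝ) ≤ (E : ℝ) ^ 2 := by
      have h5 : (1 : ℝ) ≤ E := by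
        rw [← he12]
        exact one_le_pow₀ (by linarith)
      exact one_le_pow₀ h5
    have h5 : ∑ r ∈ (TB m q M z P).filter (fun r => M < cost z r + q * m),
        gw y z (cw E z B t) r ≤ (E : ℝ) ^ 2 * ∑ r ∈ (TB m q M z P).filter
        (fun r => M < cost z r + q * m), gw y z (cw E z B t) r :=
      le_mul_of_one_le_left h3 h4
    linarith
  have hg : ∀ k ≤ K, gg y z k ≤ om y z ^ k := fun k hk => gg_le (hk.trans hKy)
  have hT0 : ∀ k, 0 ≤ tau m q M' z P k := fun k => tau_nonneg _ _ _ _ _ _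
  have hTK : ∀ k, K < k → tau m q M' z P k = 0 := fun k hk => by
    refine tau_zero hm hz P (lt_of_le_of_lt ?_ hk)
    rw [hKd]
    exact Nat.div_le_div_right hM'M
  have hPB : P ∩ B = B := Finset.inter_eq_right.2 hBP
  have hBm : ∀ k ≤ K, (1 - η / 2) * (((P ∩ B).card.choose k : ℝ) * om y z ^ k)
      ≤ (S ∩ B).card.choose k := by
    rw [hPB]
    exact hmany _ _ hNB hB
  have hR0 : 0 ≤ R := by
    rw [hR]
    refine Finset.sum_nonneg fun k _ => Finset.sum_nonneg fun l _ => ?_
    have := hT0 (k + l)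
    positivity
  have hD0 : 0 ≤ DN E z y B t P := by linarith
  rcases le_or_gt (((P \ B).card : ℝ) * om y z) (√(E : ℝ)) with hμ | hμ
  · -- few points of the first kind
    have ht10 := t1_nonneg m q z
    have hmt : (m : ℝ) * t1 m q z ≤ 1 := by
      have h2 := Pool.Agent.Helper88.RR.sum_wt m q z (by linarith)
      have h3 : (m : ℝ) * t1 m q z ≤ ∑ s ∈ LA z m (q * m), (ee z s : ℝ) *
          (ab m q z s ^ 2 * (Nat.totient s : ℝ)) := by
        rw [t1, Finset.mul_sum]
        refine Finset.sum_le_sum fun s hs => mul_le_mul_of_nonneg_right ?_ (by positivity)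
        have h4 : m ≤ ee z s := by
          have h5 : z ^ m ≤ s := (mem_filter.1 hs).2
          have h6 : m ≤ Nat.log z s := Nat.le_log_of_pow_le (by omega) h5
          unfold ee
          omega
        exact_mod_cast h4
      rw [h2] at h3
      refine h3.trans ?_
      rw [div_le_one (by linarith)]
      exact hV1
    have hm9 : e ^ 9 ≤ m := by
      by_contra h
      push Not at h
      have h2 : (m : ℝ) ^ 4 < (e ^ 9) ^ 4 := pow_lt_pow_left₀ h (by positivity) (by norm_num)
      have h3 : ((E ^ 3 : ℕ) : ℝ) ≤ ((m ^ 4 : ℕ) : ℝ) := by exact_mod_cast hm4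
      push_cast at h3
      rw [← he12] at h3
      have h4 : (e ^ 12) ^ 3 = (e ^ 9) ^ 4 := by ring
      linarith
    have hδ : ((P \ B).card : ℝ) * om y z * t1 m q z ≤ η / 4 := by
      rw [hsq] at hμ
      have h2 : ((P \ B).card : ℝ) * om y z * t1 m q z ≤ e ^ 6 * t1 m q z :=
        mul_le_mul_of_nonneg_right hμ ht10
      have h3 : e ^ 9 * t1 m q z ≤ 1 := (mul_le_mul_of_nonneg_right hm9 ht10).trans hmt
      have h4 : 4 ≤ η * e ^ 3 := by
        have h6 : (4 : ℝ) ≤ e ^ 2 := by nlinarith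
        have h7 : η * e ^ 3 = (η * e) * e ^ 2 := by ring
        rw [h7]
        nlinarith
      have h5 : 4 * (e ^ 6 * t1 m q z) ≤ η * e ^ 3 * (e ^ 6 * t1 m q z) :=
        mul_le_mul_of_nonneg_right h4 (by positivity)
      have h6 : η * e ^ 3 * (e ^ 6 * t1 m q z) = η * (e ^ 9 * t1 m q z) := by ring
      have h7 : η * (e ^ 9 * t1 m q z) ≤ η * 1 := mul_le_mul_of_nonneg_left h3 hη.le
      linarith
    have hcmp := case_few (fun k => tau m q M' z P k) (gg y z) hT0 K hTK (om y z) (η / 2) t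
      (t1 m q z) ho ht10 (by linarith) hg (fun k l => tau_add m q M' z P k l) (P \ B).card
      (P ∩ B).card (S \ B).card (S ∩ B).card n (by omega) (by
        have := Finset.card_le_card (Finset.sdiff_subset (s := P) (t := B))
        omega) hBm
    rw [← hL, ← hR] at hcmp
    have h1 : Real.exp (((P \ B).card : ℝ) * om y z * t1 m q z) ≤ Real.exp (η / 4) :=
      Real.exp_le_exp.2 hδ
    have h2 : (1 - η / 2) * L ≤ Real.exp (η / 4) * R :=
      hcmp.trans (mul_le_mul_of_nonneg_right h1 hR0)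
    have h3 : (1 - η / 4) * Real.exp (η / 4) ≤ 1 := by
      have h4 := Real.add_one_le_exp (-(η / 4))
      have h5 : Real.exp (-(η / 4)) * Real.exp (η / 4) = 1 := by rw [← Real.exp_add]; simp
      have h6 : 0 < Real.exp (η / 4) := Real.exp_pos _
      nlinarith
    have h4 : (1 - η / 4) * ((1 - η / 2) * L) ≤ R := by
      calc (1 - η / 4) * ((1 - η / 2) * L) ≤ (1 - η / 4) * (Real.exp (η / 4) * R) :=
            mul_le_mul_of_nonneg_left h2 (by linarith)
        _ = ((1 - η / 4) * Real.exp (η / 4)) * R := by ring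
        _ ≤ 1 * R := mul_le_mul_of_nonneg_right h3 hR0
        _ = R := one_mul _
    refine le_trans ?_ h4
    have h5 : (1 - η / 4) * ((1 - η / 2) * ((1 - η ^ 2 / 4) * DN E z y B t P))
        ≤ (1 - η / 4) * ((1 - η / 2) * L) :=
      mul_le_mul_of_nonneg_left (mul_le_mul_of_nonneg_left hDL (by linarith)) (by linarith)
    refine le_trans ?_ h5
    have h6 : (1 - η) ≤ (1 - η / 4) * ((1 - η / 2) * (1 - η ^ 2 / 4)) := by
      nlinarith [mul_pos hη hη, mul_pos (mul_pos hη hη) hη, mul_pos hη (by linarith : 0 < 1 - η),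
        mul_pos (mul_pos hη hη) (by linarith : 0 < 1 - η),
        mul_pos (mul_pos (mul_pos hη hη) hη) (by linarith : 0 < 1 - η)]
    calc (1 - η) * DN E z y B t P
        ≤ ((1 - η / 4) * ((1 - η / 2) * (1 - η ^ 2 / 4))) * DN E z y B t P :=
          mul_le_mul_of_nonneg_right h6 hD0
      _ = _ := by ring
  · -- many points of the first kind
    have hAs : ((P \ B).card : ℝ) * om y z * (1 - η / (8 * ((K : ℝ) + 1))) ≤ (S \ B).card := by
      rcases hA with h | h
      · exact absurd h (not_le.2 hμ)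
      · exact h
    have hcmp := case_many (fun k => tau m q M' z P k) (gg y z) hT0 K hTK (om y z) (η / 2) t
      ho (by linarith) hg (P \ B).card (P ∩ B).card (S \ B).card (S ∩ B).card n
      (hmany _ _ hμ.le hAs) hBm
    rw [← hL, ← hR] at hcmp
    refine le_trans ?_ hcmp
    have h5 : (1 - η / 2) ^ 2 * ((1 - η ^ 2 / 4) * DN E z y B t P) ≤ (1 - η / 2) ^ 2 * L :=
      mul_le_mul_of_nonneg_left hDL (by positivity)
    refine le_trans ?_ h5
    have h6 : (1 - η) ≤ (1 - η / 2) ^ 2 * (1 - η ^ 2 / 4) := by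
      nlinarith [mul_pos hη hη, mul_pos (mul_pos hη hη) hη, mul_pos (mul_pos hη hη)
        (by linarith : 0 < 1 - η), mul_pos (mul_pos (mul_pos hη hη) hη) (by linarith : 0 < 1 - η)]
    calc (1 - η) * DN E z y B t P
        ≤ ((1 - η / 2) ^ 2 * (1 - η ^ 2 / 4)) * DN E z y B t P :=
          mul_le_mul_of_nonneg_right h6 hD0
      _ = _ := by ring

end Pool.Agent.Helper69.PX
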